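import Pool.Agent.R988.Loc2

/-! Eigenvectors on large tori: the choice of the parameters and the union over the tori. -/

set_option autoImplicit false
set_option linter.unusedVariables false

open scoped BigOperators ComplexConjugate Topology
open Set MeasureTheory Filter

namespace Pool.Agent.N559.TE

open Pool.Agent.R988
open Pool.Agent.R988.Tor
open Pool.Agent.H4R2.LO (Zd)
open Pool.Agent.TH794.HK (ph Tg)
open Pool.Agent.TH794.QE (Rs rs_exists RegE)
open Pool.Agent.TH794.QD (GF F0 F1)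

theorem fin (d : ℕ) (hd : 2 ≤ d) (κ : ℝ) (hκ : 0 < κ) (hκ1 : κ ≤ 1) :
    ∃ m : ℝ, 0 < m ∧ ∀ b v ε τ : ℝ, 0 < b → 0 < v → 0 < ε → 0 < τ →
    ∃ lam0 c1 : ℝ, 0 < lam0 ∧ 0 < c1 ∧
    ∀ (μ : Measure ℝ), IsProbabilityMeasure μ → (∀ᵐ s ∂μ, |s| ≤ b) →
    ∀ M V : ℝ, ∫ s, s ∂μ = M → ∫ s, (s - M) ^ 2 ∂μ = V → v ≤ V →
    ∀ lam : ℝ, 0 < lam → lam ≤ lam0 →
    ∃ G : Set (Zd d → ℝ), MeasurableSet G ∧
      1 - Real.exp (-lam ^ (-(1 / 102) : ℝ)) ≤
        (Measure.infinitePi fun _ : Zd d => μ).real G ∧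
      ∀ ω ∈ G, ∀ (L : ℕ) [NeZero L], lam ^ (-7 : ℝ) ≤ L →
        (L : ℝ) ≤ Real.exp (lam ^ (-(1 / 102) : ℝ)) →
        ∀ (ψ : TT d L → TT d L → ℂ) (E : TT d L → ℝ),
        EB (fun x => 2 * d + lam * ω (em x)) ψ E →
        ∀ e : ℝ, (RegE d κ (2 * d + lam * M - e) ∧ |2 * (d : ℝ) + lam * M - e| ≤ 2 * d - κ) →
        ∀ w : ℝ, 8 * lam ^ (81 / 40 : ℝ) ≤ w → w ≤ lam ^ (161 / 80 : ℝ) →
          m * w * (L : ℝ) ^ d ≤ ((Finset.univ.filter fun j => |E j - e| ≤ w).card : ℝ) ∧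
          ((Finset.univ.filter fun j => |E j - e| ≤ w ∧ ∃ (i : Fin d) (y : ZMod L),
            ε ≤ ∑ x : TT d L, if |((x i - y).valMinAbs : ℝ)| ≤ c1 / (lam * Real.sqrt w) then
              ‖ψ j x‖ ^ 2 else 0).card : ℝ) ≤
            τ * ((Finset.univ.filter fun j => |E j - e| ≤ w).card : ℝ) := by
  obtain ⟨γ0, γ1, hB⟩ := base d hd
  obtain ⟨hlim, ⟨m, hm, hlow⟩, hlaw⟩ := hB κ hκ hκ1
  obtain ⟨C, hC, hup⟩ := up d hd κ hκ hκ1
  have hd0 : (0 : ℝ) < d := by exact_mod_cast (by omega : 0 < d)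
  refine ⟨m / 16, by positivity, fun b v ε τ hb hv hε hτ => ?_⟩
  obtain ⟨τ', hτ'⟩ : ∃ τ', τ' = τ * m * ε ^ 2 / (256 * d) := ⟨_, rfl⟩
  have hτ'0 : 0 < τ' := by rw [hτ']; positivity
  obtain ⟨θ, hθ⟩ : ∃ θ, θ = τ' / (16 * C) := ⟨_, rfl⟩
  have hθ0 : 0 < θ := by rw [hθ]; positivity
  obtain ⟨K, hK⟩ : ∃ K, K = 16 * C ^ 3 / (τ' * θ ^ 2 * m) := ⟨_, rfl⟩
  have hK0 : 0 < K := by rw [hK]; positivity
  obtain ⟨c1, hc1⟩ : ∃ c1, c1 = 1 / (4 * b * Real.sqrt K) := ⟨_, rfl⟩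
  have hsK : 0 < Real.sqrt K := Real.sqrt_pos.2 hK0
  have hc10 : 0 < c1 := by rw [hc1]; positivity
  obtain ⟨cc, hcc, h3⟩ := hlaw b v K hb hv hK0.le
  obtain ⟨A, hA⟩ : ∃ A, A = 8 / τ' + 10 / m := ⟨_, rfl⟩
  have hA0 : 0 < A := by rw [hA]; positivity
  have hev : ∀ᶠ t : ℝ in 𝓝[>] 0, A * t ^ (1 / 200 : ℝ) ≤ 1 ∧
      (40960 * d * A) * t ^ (37 / 40 : ℝ) ≤ 1 ∧
      ((2 * Real.pi) ^ 2 * (1 + 4 * C / τ') ^ 2 / (8 * K * v)) * t ^ (399 / 40 : ℝ) ≤ 1 ∧
      (2 * d + 3) * t ^ (1 / 10302 : ℝ) ≤ 1 ∧ 4 * t ^ (7 : ℝ) ≤ 1 := by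
    filter_upwards [ev1 A (1 / 200) (by norm_num), ev1 (40960 * d * A) (37 / 40) (by norm_num),
      ev1 ((2 * Real.pi) ^ 2 * (1 + 4 * C / τ') ^ 2 / (8 * K * v)) (399 / 40) (by norm_num),
      ev1 (2 * d + 3) (1 / 10302) (by norm_num), ev1 4 7 (by norm_num)] with t a1 a2 a3 a4 a5
    exact ⟨a1, a2, a3, a4, a5⟩
  obtain ⟨t0, ht0, ht01, hev⟩ := ev_extract hev
  refine ⟨min cc t0, c1, lt_min hcc ht0, hc10, ?_⟩
  intro μ hμ hμb M V hM hV hvV lam hlam hlam0
  have hl1 : lam ≤ cc := hlam0.trans (min_le_left _ _)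
  have hl2 : lam ≤ t0 := hlam0.trans (min_le_right _ _)
  have hl3 : lam ≤ 1 := hl2.trans ht01
  obtain ⟨n1, n2, n3, n4, n5⟩ := hev lam hlam hl2
  obtain ⟨G, hG, hP, hL⟩ := h3 lam hlam hl1 μ hμ hμb M V hM hV hvV
  obtain ⟨X, hX⟩ : ∃ X, X = lam ^ (-(1 / 102) : ℝ) := ⟨_, rfl⟩
  obtain ⟨Y, hY⟩ : ∃ Y, Y = lam ^ (-(1 / 101) : ℝ) := ⟨_, rfl⟩
  have hX0 : 0 < X := by rw [hX]; positivity
  have hX1 : 1 ≤ X := by
    rw [hX]
    exact Real.one_le_rpow_of_pos_of_le_one_of_nonpos hlam hl3 (by norm_num)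
  have hXY : (2 * d + 3) * X ≤ Y := by
    have e1 : X = lam ^ (1 / 10302 : ℝ) * Y := by
      rw [hX, hY, ← Real.rpow_add hlam]
      norm_num
    have hY0 : 0 < Y := by rw [hY]; positivity
    calc (2 * d + 3) * X = ((2 * d + 3) * lam ^ (1 / 10302 : ℝ)) * Y := by rw [e1]; ring
      _ ≤ 1 * Y := by gcongr
      _ = Y := one_mul Y
  obtain ⟨N, hN⟩ : ∃ N : ℕ, N = ⌊Real.exp X⌋₊ := ⟨_, rfl⟩
  obtain ⟨G', hG', hP', hL'⟩ := union μ G hG (Real.exp (-Y)) (Real.exp_pos _).le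
    (by rw [hY]; exact hP) N
  rw [← hX]
  refine ⟨G', hG', ?_, ?_⟩
  · refine le_trans ?_ hP'
    have h1 : ((N : ℝ) + 1) ^ (d + 1) * Real.exp (-Y) ≤ Real.exp (-X) := by
      have h2 : (N : ℝ) ≤ Real.exp X := by
        rw [hN]
        exact Nat.floor_le (Real.exp_pos _).le
      have h4 : (N : ℝ) + 1 ≤ Real.exp (2 * X) := by
        have h5 : (1 : ℝ) ≤ Real.exp X := Real.one_le_exp hX0.le
        have h6 : Real.exp (2 * X) = Real.exp X * Real.exp X := by
          rw [← Real.exp_add]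
          congr 1
          ring
        have h7 : 2 ≤ Real.exp X := by
          have := Real.add_one_le_exp X
          linarith
        rw [h6]
        nlinarith
      calc ((N : ℝ) + 1) ^ (d + 1) * Real.exp (-Y) ≤
          (Real.exp (2 * X)) ^ (d + 1) * Real.exp (-Y) := by gcongr
        _ = Real.exp ((d + 1) * (2 * X) - Y) := by
            rw [← Real.exp_nat_mul, ← Real.exp_add]
            congr 1
            push_cast
            ring
        _ ≤ _ := by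
            apply Real.exp_le_exp.2
            linarith
    linarith
  · intro ω hω L hLne hL1 hL2 ψ E hEB e he w hw1 hw2
    obtain ⟨-, hsh⟩ := hL' ω hω
    have hLN : L ≤ N := by
      rw [hN]
      exact Nat.le_floor hL2
    have hωb : ∀ x, |ω x| ≤ b := by
      have h1 := hsh L hLN 0
      intro x
      have h2 := (hL _ h1).1 ((cycE (0 : TT d L)).symm x)
      rwa [Equiv.apply_symm_apply] at h2
    have hV0 : 0 < V := hv.trans_le hvV
    have hV4 : V ≤ 4 * b ^ 2 := by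
      have hMb : |M| ≤ b := by
        rw [← hM, ← Real.norm_eq_abs]
        have h1 := norm_integral_le_of_norm_le_const (μ := μ) (f := fun s : ℝ => s) (C := b) (by
          filter_upwards [hμb] with s hs
          rw [Real.norm_eq_abs]
          exact hs)
        rw [probReal_univ, mul_one] at h1
        exact h1
      rw [← hV]
      have h1 := norm_integral_le_of_norm_le_const (μ := μ) (f := fun s : ℝ => (s - M) ^ 2)
        (C := 4 * b ^ 2) (by
          filter_upwards [hμb] with s hs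
          rw [Real.norm_eq_abs, abs_of_nonneg (sq_nonneg _)]
          have h2 := abs_sub s M
          have h3 : |s - M| ≤ 2 * b := by linarith
          have h4 := sq_abs (s - M)
          have h5 := abs_nonneg (s - M)
          nlinarith)
      rw [probReal_univ, mul_one] at h1
      exact (Real.le_norm_self _).trans h1
    have hp81 : 0 < lam ^ (81 / 40 : ℝ) := by positivity
    have hw0 : 0 < w := by linarith
    have hw1' : w ≤ 1 := hw2.trans (Real.rpow_le_one hlam.le hl3 (by norm_num))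
    have hs2 : 0 < lam ^ 2 * V := by positivity
    -- the side
    have h7 : lam ^ (-7 : ℝ) * lam ^ (7 : ℝ) = 1 := by
      rw [← Real.rpow_add hlam]
      norm_num
    have hl7 : 0 < lam ^ (7 : ℝ) := by positivity
    have hL4 : (4 : ℝ) ≤ L := by
      have : (4 : ℝ) ≤ lam ^ (-7 : ℝ) := by nlinarith
      linarith
    obtain ⟨ρ, hρ⟩ : ∃ ρ : ℝ, ρ = L / 2 - 1 := ⟨_, rfl⟩
    have hρ1 : 1 ≤ ρ := by linarith
    have hρ4 : (L : ℝ) / 4 ≤ ρ := by linarith
    have hρ0 : 0 < ρ := by linarith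
    obtain ⟨c, hc⟩ : ∃ c : Zd d, c = fun _ => ((L / 2 : ℕ) : ℤ) := ⟨_, rfl⟩
    have hdiv1 : ((L : ℝ) - 1) / 2 ≤ ((L / 2 : ℕ) : ℝ) := by
      have : (L : ℝ) ≤ 2 * ((L / 2 : ℕ) : ℝ) + 1 := by
        exact_mod_cast (by omega : L ≤ 2 * (L / 2) + 1)
      linarith
    have hdiv2 : ((L / 2 : ℕ) : ℝ) ≤ L / 2 := Nat.cast_div_le
    have hcb : ∀ i, ρ ≤ c i ∧ ρ + 1 ≤ L - c i := by
      intro i
      rw [hc]
      simp only [Int.cast_natCast]
      constructor <;> linarith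
    have hcn : ‖c‖ ≤ Real.exp (lam ^ (-(1 / 101) : ℝ)) := by
      rw [← hY]
      have h1 : ‖c‖ ≤ (L : ℝ) := by
        refine (pi_norm_le_iff_of_nonneg (by linarith)).2 fun i => ?_
        rw [hc]
        simp only
        rw [Int.norm_natCast]
        linarith
      have h2 : Real.exp X ≤ Real.exp Y := by
        apply Real.exp_le_exp.2
        nlinarith

      linarith
    have hwi : w⁻¹ ≤ lam ^ (-(81 / 40) : ℝ) := by
      rw [Real.rpow_neg hlam.le]
      apply inv_anti₀ hp81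
      linarith
    have hδ : lam ^ (1 / 200 : ℝ) + 10240 * d * (w⁻¹) ^ 3 / ρ ≤ 2 / A := by
      have h1 : lam ^ (1 / 200 : ℝ) ≤ 1 / A := by
        rw [le_div_iff₀ hA0]
        linarith
      have h2 : 10240 * d * (w⁻¹) ^ 3 / ρ ≤ 1 / A := by
        have h8 : (w⁻¹) ^ 3 ≤ lam ^ (-(243 / 40) : ℝ) := by
          calc (w⁻¹) ^ 3 ≤ (lam ^ (-(81 / 40) : ℝ)) ^ 3 := by
                have : 0 ≤ w⁻¹ := by positivity
                gcongr
            _ = _ := by
                rw [← Real.rpow_natCast, ← Real.rpow_mul hlam.le]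
                norm_num
        have h9 : lam ^ (-7 : ℝ) / 4 ≤ ρ := by linarith
        calc 10240 * d * (w⁻¹) ^ 3 / ρ ≤
            10240 * d * lam ^ (-(243 / 40) : ℝ) / (lam ^ (-7 : ℝ) / 4) := by gcongr
          _ = 40960 * d * (lam ^ (-(243 / 40) : ℝ) * lam ^ (7 : ℝ)) := by
              have : lam ^ (-7 : ℝ) = (lam ^ (7 : ℝ))⁻¹ := by
                rw [Real.rpow_neg hlam.le]
              rw [this]
              field_simp
              ring
          _ = 40960 * d * lam ^ (37 / 40 : ℝ) := by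
              rw [← Real.rpow_add hlam]
              norm_num
          _ ≤ 1 / A := by
              rw [le_div_iff₀ hA0]
              linarith
      calc lam ^ (1 / 200 : ℝ) + 10240 * d * (w⁻¹) ^ 3 / ρ ≤ 1 / A + 1 / A := by linarith
        _ = 2 / A := by ring
    have hA1 : 2 / A ≤ τ' / 4 := by
      rw [div_le_div_iff₀ hA0 (by norm_num)]
      have : 8 / τ' ≤ A := by
        rw [hA]
        have : 0 < 10 / m := by positivity
        linarith
      rw [div_le_iff₀ hτ'0] at this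
      linarith
    have hA2 : 2 / A ≤ m / 5 := by
      rw [div_le_div_iff₀ hA0 (by norm_num)]
      have : 10 / m ≤ A := by
        rw [hA]
        have : 0 < 8 / τ' := by positivity
        linarith
      rw [div_le_iff₀ hm] at this
      linarith
    have hlim2 := hlim (2 * d + lam * M - e) he.1
    have h0C : (γ0 (2 * d + lam * M - e)).im ≤ C :=
      ((le_abs_self _).trans (Complex.abs_im_le_norm _)).trans
        (hup _ _ he.1 hlim2.1)
    have hℓ : K * (w * (lam ^ 2 * V)) * (2 * (c1 / (lam * Real.sqrt w))) ^ 2 ≤ 1 := by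
      have hsw : 0 < Real.sqrt w := Real.sqrt_pos.2 hw0
      have e1 : K * (w * (lam ^ 2 * V)) * (2 * (c1 / (lam * Real.sqrt w))) ^ 2 =
          V / (4 * b ^ 2) := by
        have k1 : Real.sqrt w ^ 2 = w := Real.sq_sqrt hw0.le
        have k2 : Real.sqrt K ^ 2 = K := Real.sq_sqrt hK0.le
        rw [hc1, mul_pow, div_pow, div_pow, mul_pow, mul_pow, mul_pow, k1, k2]
        field_simp
        ring
      rw [e1, div_le_one (by positivity)]
      exact hV4
    have hBB : (2 * Real.pi) ^ 2 * (1 + 4 * C / τ') ^ 2 ≤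
        (L : ℝ) ^ 2 * (K * (w * (lam ^ 2 * V))) := by
      have hKv : 0 < 8 * K * v := by positivity
      have h1 : (2 * Real.pi) ^ 2 * (1 + 4 * C / τ') ^ 2 * lam ^ (399 / 40 : ℝ) ≤
          8 * K * v := by
        have h2 := n3
        rw [div_mul_eq_mul_div, div_le_one hKv] at h2
        exact h2
      have h2 : lam ^ (399 / 40 : ℝ) * ((lam ^ (-7 : ℝ)) ^ 2 * (lam ^ (81 / 40 : ℝ) * lam ^ 2)) =
          1 := by
        rw [← Real.rpow_natCast (lam ^ (-7 : ℝ)), ← Real.rpow_mul hlam.le,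
          ← Real.rpow_natCast lam 2, ← Real.rpow_add hlam, ← Real.rpow_add hlam,
          ← Real.rpow_add hlam]
        norm_num
      obtain ⟨Z, hZ⟩ : ∃ Z, Z = (lam ^ (-7 : ℝ)) ^ 2 * (lam ^ (81 / 40 : ℝ) * lam ^ 2) := ⟨_, rfl⟩
      have hZ0 : 0 < Z := by rw [hZ]; positivity
      rw [← hZ] at h2
      calc (2 * Real.pi) ^ 2 * (1 + 4 * C / τ') ^ 2 =
          ((2 * Real.pi) ^ 2 * (1 + 4 * C / τ') ^ 2 * lam ^ (399 / 40 : ℝ)) * Z := by
            rw [mul_assoc _ _ Z, h2, mul_one]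
        _ ≤ 8 * K * v * Z := by gcongr
        _ = (lam ^ (-7 : ℝ)) ^ 2 * (K * ((8 * lam ^ (81 / 40 : ℝ)) * (lam ^ 2 * v))) := by
            rw [hZ]
            ring
        _ ≤ _ := by gcongr
    have hdet := fun (i : Fin d) => (det (by omega : 0 < d) (ω := ω) lam b hlam hωb c ρ hρ1 hcb e w
      (lam ^ 2 * V) hw0 hw1' hs2 γ0 γ1 (2 * d + lam * M - e) C m K (lam ^ (1 / 200 : ℝ)) hm h0C
      (hlow _ he.1 he.2) hlim2.2.2.2 hK0
      (fun η hη s u hu p hp => by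
        have hη1 : lam ^ (81 / 40 : ℝ) ≤ η := by
          rcases hη with hη | hη <;> rw [hη] <;> linarith
        have hη2 : η ≤ lam ^ (161 / 80 : ℝ) := by
          rcases hη with hη | hη <;> rw [hη] <;> linarith
        exact (hL _ (hsh L hLN s)).2 c hcn e he η hη1 hη2 u hu p hp)
      ε θ τ' (c1 / (lam * Real.sqrt w)) hε hθ0 hτ'0
      (by rw [hθ]; field_simp; exact le_refl _)
      (by rw [hK]; field_simp; exact le_refl _)
      (hδ.trans hA1) (hδ.trans hA2) hℓ hBB hEB)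
    have hcard : (Fintype.card (TT d L) : ℝ) = (L : ℝ) ^ d := by
      rw [Fintype.card_fun, ZMod.card, Fintype.card_fin]
      push_cast
      rfl
    rw [hcard] at hdet
    obtain ⟨i0⟩ : Nonempty (Fin d) := ⟨⟨0, by omega⟩⟩
    obtain ⟨W0, hW0⟩ : ∃ W0 : Finset (TT d L), W0 = Finset.univ.filter fun j => |E j - e| ≤ w :=
      ⟨_, rfl⟩
    have hlow1 := (hdet i0).1
    refine ⟨hlow1, ?_⟩
    classical
    have hsub : (Finset.univ.filter fun j => |E j - e| ≤ w ∧ ∃ (i : Fin d) (y : ZMod L),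
            ε ≤ ∑ x : TT d L, if |((x i - y).valMinAbs : ℝ)| ≤ c1 / (lam * Real.sqrt w) then
              ‖ψ j x‖ ^ 2 else 0) ⊆ Finset.univ.biUnion fun i : Fin d =>
        Finset.univ.filter fun j => |E j - e| ≤ w ∧ ∃ y : ZMod L,
            ε ≤ ∑ x : TT d L, if |((x i - y).valMinAbs : ℝ)| ≤ c1 / (lam * Real.sqrt w) then
              ‖ψ j x‖ ^ 2 else 0 := by
      intro j hj
      rw [Finset.mem_filter] at hj
      obtain ⟨-, h1, i, y, h2⟩ := hj
      rw [Finset.mem_biUnion]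
      exact ⟨i, Finset.mem_univ i, Finset.mem_filter.2 ⟨Finset.mem_univ j, h1, y, h2⟩⟩
    have hc2 : ((Finset.univ.filter fun j => |E j - e| ≤ w ∧ ∃ (i : Fin d) (y : ZMod L),
            ε ≤ ∑ x : TT d L, if |((x i - y).valMinAbs : ℝ)| ≤ c1 / (lam * Real.sqrt w) then
              ‖ψ j x‖ ^ 2 else 0).card : ℝ) ≤ ∑ i : Fin d,
        ((Finset.univ.filter fun j => |E j - e| ≤ w ∧ ∃ y : ZMod L,
            ε ≤ ∑ x : TT d L, if |((x i - y).valMinAbs : ℝ)| ≤ c1 / (lam * Real.sqrt w) then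
              ‖ψ j x‖ ^ 2 else 0).card : ℝ) := by
      have h1 := (Finset.card_le_card hsub).trans Finset.card_biUnion_le
      exact_mod_cast h1
    have hε2 : 0 < ε ^ 2 := by positivity
    have hc3 : ∀ i : Fin d, ((Finset.univ.filter fun j => |E j - e| ≤ w ∧ ∃ y : ZMod L,
            ε ≤ ∑ x : TT d L, if |((x i - y).valMinAbs : ℝ)| ≤ c1 / (lam * Real.sqrt w) then
              ‖ψ j x‖ ^ 2 else 0).card : ℝ) ≤ 16 * w * (L : ℝ) ^ d * τ' / ε ^ 2 := by
      intro i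
      rw [le_div_iff₀ hε2]
      exact (hdet i).2 i
    refine hc2.trans ((Finset.sum_le_sum fun i _ => hc3 i).trans ?_)
    rw [Finset.sum_const, Finset.card_univ, Fintype.card_fin, nsmul_eq_mul]
    calc (d : ℝ) * (16 * w * (L : ℝ) ^ d * τ' / ε ^ 2) = τ * (m / 16 * w * (L : ℝ) ^ d) := by
          rw [hτ']
          field_simp
          ring
      _ ≤ _ := by gcongr

end Pool.Agent.N559.TE
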